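import Pool.Agent.H.MP_3abf0f_al.RSeq

set_option autoImplicit false
open Function Pool.Agent.H.MP_3abf0f_al RSeq

namespace Pool.Agent.Results.MP_d3366a_al.RSeq

def L : List (ℤ × ℤ) := [(1, 0), (2, 0), (4, 0), (3, 0), (0, 1), (5, 0), (1, 1), (5, 1), (7, 1),
  (6, 1), (6, 0), (4, 1), (7, 0), (2, 1), (3, 1), (1, 0)]

def V (k : ℤ) : ℤ × ℤ := L.getD k.toNat 0

def pr (u v : ℤ × ℤ) : ℤ × ℤ :=
  if u.2 = 0 then (v.1 - u.1, v.2) else (u.1 - v.1 + 4 * (v.1 - u.1), 1 + v.2)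

lemma ne {q k x s : ℤ} (hq : 2 ≤ q) (h : ED q k x s)
    (e : (x = 0 ∨ x = 0 + 8 * q ∨ 0 = x + 8 * q) ∧ (s - 0) % 2 = 0) : False := by
  unfold ED at h
  omega

lemma key {G : Type*} [Group G] {q : ℕ} {a b : G} (H : SD q a b) (hq : q = 1 ∨ 2 ≤ q)
    (m : ℕ) [NeZero m] (hm : m + 1 = 16 * q) :
    ∃ g : ZMod m → G, (∀ i, g i ≠ 1) ∧ Injective g ∧ Injective fun i => (g i)⁻¹ * g (i + 1) := by
  rcases hq with rfl | hq
  · obtain rfl : m = 15 := by omega
    refine ⟨_, fun i h => ?_, cyc 15 (fun k => a ^ (V k).1 * b ^ (V k).2) (·⁻¹ * ·) rfl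
      fun k l h0 h1 h2 h3 h => ?_⟩
    · have := H.inj _ _ 0 0 (h.trans (by simp))
      clear h
      simp only [Int.dvd_iff_emod_eq_zero] at this
      exact (show ∀ k < 15, ¬ (((V (k : ℕ)).1 - 0) % (8 * (1 : ℕ)) = 0 ∧
        ((V (k : ℕ)).2 - 0) % 2 = 0) by decide) _ i.val_lt this
    lift k to ℕ using h0
    lift l to ℕ using h2
    have e : ∀ k : ℕ, k < 15 →
        (a ^ (V k).1 * b ^ (V k).2)⁻¹ * (a ^ (V (k + 1)).1 * b ^ (V (k + 1)).2) =
        a ^ (pr (V k) (V (k + 1))).1 * b ^ (pr (V k) (V (k + 1))).2 := fun k hk => by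
      have : (V k).2 = 0 ∨ (V k).2 = 1 := by revert k; decide
      rcases this with h | h
      · rw [pr, if_pos h]; exact H.d0 0 h (by simp)
      · rw [pr, if_neg (by omega)]; exact H.d1 ((V (k + 1)).1 - (V k).1) h (by simp) (by simp)
    replace h1 : k < 15 := by omega
    replace h3 : l < 15 := by omega
    rw [e k h1, e l h3] at h
    have := h.imp (H.inj _ _ _ _) (H.inj _ _ _ _)
    clear h e
    simp only [Int.dvd_iff_emod_eq_zero] at this
    revert l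
    revert k
    decide +kernel
  · have hq' : (2 : ℤ) ≤ q := by omega
    refine ⟨_, fun i h => ?_, cyc m (fun k => a ^ (U q k).1 * b ^ (U q k).2) (·⁻¹ * ·) ?_
      fun k l h0 h1 h2 h3 h => ?_⟩
    · have a := ed hq' (k := i.val) (by omega) (by have := i.val_lt; omega)
      exact ne hq' a (H.tri (h.trans (by simp)) (ED_rng hq' a).1 (ED_rng hq' a).2 le_rfl (by omega))
    · rw [Ulast hq' (by omega), U1 hq' (by omega), U0]; simp
    have h1 : k < 16 * q - 1 := by omega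
    have h3 : l < 16 * q - 1 := by omega
    rcases h with h | h
    · have a := ed hq' h0 h1
      have b := ed hq' h2 h3
      exact ED_inj hq' a b (H.tri h (ED_rng hq' a).1 (ED_rng hq' a).2 (ED_rng hq' b).1 (ED_rng hq' b).2)
    · obtain ⟨p, t, e, a⟩ := ld H hq' h0 h1
      obtain ⟨p', t', e', b⟩ := ld H hq' h2 h3
      exact LD_inj hq' a b (H.tri (e.symm.trans (h.trans e')) (LD_rng hq' a).1 (LD_rng hq' a).2
        (LD_rng hq' b).1 (LD_rng hq' b).2)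

theorem result (n : ℕ) (hn : 4 ≤ n) (G : Type*) [Group G] [Fintype G] (a b : G)
    (hc : Fintype.card G = 2 ^ n) (hg : Subgroup.closure {a, b} = ⊤) (ha : a ^ 2 ^ (n - 1) = 1)
    (hb : b ^ 2 = 1) (hba : b * a * b⁻¹ = a ^ (2 ^ (n - 2) - 1)) :
    ∃ x : ZMod (2 ^ n - 1) → G, Injective x ∧ Set.range x = {g | g ≠ 1} ∧
      Injective fun i => (x i)⁻¹ * x (i + 1) := by
  obtain ⟨j, rfl⟩ := Nat.exists_eq_add_of_le' hn
  have h0 : 0 < 2 ^ j := by positivity
  have : NeZero (2 ^ (j + 4) - 1) := ⟨by rw [pow_add]; omega⟩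
  obtain ⟨g, h1, h2, h3⟩ := key (mkSD (2 ^ j) h0 a b
    (by rw [← ha, show j + 4 - 1 = j + 3 from rfl]; ring_nf) hb
    (by rw [hba, show j + 4 - 2 = j + 2 from rfl]; ring_nf) (by rw [hc]; ring) hg)
    (by omega) (2 ^ (j + 4) - 1) (by rw [pow_add]; omega)
  refine ⟨g, h2, Set.eq_of_subset_of_ncard_le (by rintro _ ⟨i, rfl⟩; exact h1 i) ?_, h3⟩
  rw [Set.ncard_range_of_injective h2, show {g : G | g ≠ 1} = {1}ᶜ from rfl, Set.ncard_compl]
  simp [hc]

end Pool.Agent.Results.MP_d3366a_al.RSeq
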